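import Pool.Agent.Helper79.PN.StmtsB

/-!
Project ISO (MP_7c9036_mp): `-3` is an isolated point of the spectrum of the Laplacian of the
rhombic Penrose tilings. Definitions and statements of the rows.

Everything is about the abstract tiling data `P : Pen` of the project PN. Functions `a` live on the
vertices of degree at least 4 (`Sup4 P a`); `rr P a` are the neighbour sums at the vertices of
degree 3.
-/

set_option autoImplicit false

open scoped Classical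

namespace Pool.Agent.Helper69.ISO

open Pool.Agent.Helper79.PN

/-- values of the neighbour sum at the vertices of degree 3 -/
noncomputable def rr (P : Pen) (a : Lam → ℝ) (w : Lam) : ℝ := if IsT P w then adj a w else 0

/-- a box of displacements -/
noncomputable def Bx (n : ℕ) : Finset Lam := Fintype.piFinset fun _ => Finset.Icc (-(n : ℤ)) n

/-- near `c` the neighbour sums at the vertices of degree 3 are at most `M` -/
def Near (P : Pen) (a : Lam → ℝ) (n : ℕ) (c : Lam) (M : ℝ) : Prop :=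
  ∀ D ∈ Bx n, |rr P a (c + D)| ≤ M

/-- finitely supported functions on the vertices of degree at least 4 whose neighbour sums vanish
at the vertices of degree 3 -/
def Ker (P : Pen) (b : Lam → ℝ) : Prop :=
  (Function.support b).Finite ∧ Sup4 P b ∧ ∀ w, IsT P w → adj b w = 0

/-- orthogonal to these functions -/
def Orth (P : Pen) (a : Lam → ℝ) : Prop := ∀ b, Ker P b → ∑' K, a K * b K = 0

/-- wheels: vertices of index 1 all of whose neighbours have degree 3 -/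
def Wh (P : Pen) (c : Lam) : Prop := P.n c = 1 ∧ InV P c ∧ ∀ j, P.h c j < (g - 1) / 2

/-- full rings around a point of index 2 -/
def FR (P : Pen) (z : Lam) : Prop := P.n z = 2 ∧ ∀ j, P.h z j < (2 - g) / 2

/-- hubs of a ring (index 1 if `z` has index 2) -/
def hb (z : Lam) (k : ZMod 5) : Lam := z + e k - e (k + 1) - e (k - 1)

/-- inner points of a ring (index 3) -/
def pv (z : Lam) (k : ZMod 5) : Lam := z + e k

/-- outer points of a ring (index 3) -/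
def qv (z : Lam) (k : ZMod 5) : Lam := z + e (k - 1) + e (k + 1) - e k

/-- rim of a hub (index 3 if `c` has index 1) -/
def rim (c : Lam) (j : ZMod 5) : Lam := c + e j + e (j + 2)

/-- the five wheels around a point of index 4 -/
def vc (u : Lam) (j : ZMod 5) : Lam := u + e j - e (j + 1) - e (j + 1) - e (j - 1) - e (j - 1)

/-- the hubs between these wheels -/
def xv (u : Lam) (m : ZMod 5) : Lam := u - e m - e (m + 2) - e (m - 2)

/-- the inner points next to these hubs -/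
def yv (u : Lam) (m : ZMod 5) : Lam := u + e (m + 1) + e (m - 1) - e m - e (m + 2) - e (m - 2)

/-- an arc wheel - hub - wheel of the ring around `z` -/
def Arc (P : Pen) (z : Lam) (m : ZMod 5) : Prop :=
  X1 P (hb z m) m ∧ Wh P (hb z (m + 2)) ∧ Wh P (hb z (m - 2)) ∧
    T1 P.mir (-(z + e m + e (m + 2))) (m + 1) ∧ T1 P.mir (-(z + e m + e (m - 2))) (m - 1)

/-! ### Geometry -/

/-- G1: the vertices of index 1 and degree at least 4 -/
def ST_G1 : Prop := ∀ (P : Pen) (c : Lam), P.n c = 1 → InV P c → ¬ IsT P c →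
  Wh P c ∨ ∃ m, X1 P c m

/-- G2: the neighbours of degree 3 of the hubs -/
def ST_G2 : Prop := (∀ (P : Pen) (c : Lam) (j : ZMod 5), Wh P c → T2 P (c + e j) j) ∧
  (∀ (P : Pen) (c : Lam) (m j : ZMod 5), X1 P c m → T2 P (c + e j) j → j = m + 1 ∨ j = m - 1) ∧
  (∀ (P : Pen) (c : Lam) (m : ZMod 5), X1 P c m →
    T2 P (c + e (m + 1)) (m + 1) ∧ T2 P (c + e (m - 1)) (m - 1))

/-- G3: the vertices of degree 3 of a full ring -/
def ST_G3 : Prop := ∀ (P : Pen) (z : Lam) (k : ZMod 5), FR P z →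
  T1 P.mir (-(z + e (k - 1) + e (k + 1))) k ∧ T2 P (z + e k - e (k + 1)) (k - 1) ∧
    T2 P (z + e k - e (k - 1)) (k + 1)

/-- G4: a full ring contains a wheel or is central -/
def ST_G4 : Prop := ∀ (P : Pen) (z : Lam), FR P z →
  (∃ k, Wh P (hb z k)) ∨ ∀ k, (3 * g - 5) / 2 < P.h z k

/-- G5: the ring of a hub of degree 4 -/
def ST_G5 : Prop := ∀ (P : Pen) (c : Lam) (m : ZMod 5), X1 P c m →
  FR P (c - e m + e (m + 1) + e (m - 1)) ∨ Arc P (c - e m + e (m + 1) + e (m - 1)) m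

/-- G6: wheels with two outer directions -/
def ST_G6 : Prop := ∀ (P : Pen) (c : Lam) (i : ZMod 5), Wh P c → P.h c i < (3 - 2 * g) / 2 →
  P.h c (i - 1) < (3 - 2 * g) / 2 → FR P (c - e (i + 2) + e (i + 1) + e (i + 3))

/-- G7: wheels with an outer direction -/
def ST_G7 : Prop := ∀ (P : Pen) (c : Lam) (i : ZMod 5), Wh P c → P.h c i < (3 - 2 * g) / 2 →
  FR P (c - e (i + 2) + e (i + 1) + e (i + 3)) ∨
    Arc P (c - e (i + 2) + e (i + 1) + e (i + 3)) (i - 1)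

/-- G8: wheels with exactly one outer direction -/
def ST_G8 : Prop := ∀ (P : Pen) (c : Lam) (i : ZMod 5), Wh P c → P.h c i < (3 - 2 * g) / 2 →
  (3 - 2 * g) / 2 ≤ P.h c (i - 1) → (3 - 2 * g) / 2 ≤ P.h c (i + 1) →
  P.n (c - e i + e (i + 1) + e (i + 1) + e (i - 1) + e (i - 1)) = 4 ∧
    ∀ j, P.h (c - e i + e (i + 1) + e (i + 1) + e (i - 1) + e (i - 1)) j < (2 * g - 3) / 2

/-- G9: the five wheels around a point of index 4 -/
def ST_G9 : Prop := ∀ (P : Pen) (u : Lam), P.n u = 4 → (∀ j, P.h u j < (2 * g - 3) / 2) →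
  ∀ j, Wh P (vc u j) ∧ P.h (vc u j) j < (3 - 2 * g) / 2 ∧
    (P.h u (j - 1) < (8 - 5 * g) / 2 → P.h (vc u j) (j - 1) < (3 - 2 * g) / 2) ∧
    (P.h u (j + 1) < (8 - 5 * g) / 2 → P.h (vc u j) (j + 1) < (3 - 2 * g) / 2)

/-- T4C: the neighbours of a vertex of degree 3 of index 4 belong to hubs -/
def ST_T4C : Prop := ∀ (P : Pen) (w : Lam) (k : ZMod 5), T1 P.mir (-w) k →
  T2 P (w - e k - e (k + 1)) (k + 3) ∧ T2 P (w - e k - e (k - 1)) (k - 3)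

/-- NSL: lines which contain no internal coordinate -/
def ST_NSL : Prop := (∀ (P : Pen) (c : Lam) (j : ZMod 5), P.n c = 1 →
    P.h c j ≠ (g - 1) / 2 ∧ P.h c j ≠ (3 - 2 * g) / 2) ∧
  (∀ (P : Pen) (z : Lam) (j : ZMod 5), P.n z = 2 →
    P.h z j ≠ (2 - g) / 2 ∧ P.h z j ≠ (3 * g - 5) / 2) ∧
  (∀ (P : Pen) (u : Lam) (j : ZMod 5), P.n u = 4 → P.h u j ≠ (8 - 5 * g) / 2)

/-! ### Relations -/

/-- B1: wheels -/
def ST_B1 : Prop := ∀ (P : Pen) (a : Lam → ℝ) (c : Lam) (M : ℝ), Sup P a → Wh P c →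
  Near P a 1 c M → ∀ j, |a (rim c j) + a c / 2| ≤ 3 * M

/-- B2: full rings -/
def ST_B2 : Prop := ∀ (P : Pen) (a : Lam → ℝ) (z : Lam) (M : ℝ), Sup P a → FR P z →
  Near P a 2 z M → ∀ k, |a (pv z k) - a (pv z 0)| ≤ 30 * M ∧ |a (hb z k) - a (pv z 0)| ≤ 30 * M ∧
    |a (qv z k) + 2 * a (pv z 0)| ≤ 30 * M

/-- B3: arcs -/
def ST_B3 : Prop := ∀ (P : Pen) (a : Lam → ℝ) (z : Lam) (m : ZMod 5) (M : ℝ), Sup P a →
  Arc P z m → Near P a 3 z M →
    |a (hb z (m + 2)) - a (hb z (m - 2))| ≤ 100 * M ∧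
    |a (hb z m) + a (hb z (m + 2)) / 2| ≤ 100 * M ∧
    |a (pv z m) - a (hb z (m + 2))| ≤ 100 * M ∧
    |a (qv z (m + 1)) + a (hb z (m + 2)) / 2| ≤ 100 * M ∧
    |a (qv z (m - 1)) + a (hb z (m + 2)) / 2| ≤ 100 * M

/-! ### Kernel functions -/

/-- K0: vertices without neighbours of degree 3 -/
def ST_K0 : Prop := ∀ (P : Pen) (a : Lam → ℝ) (v : Lam), Orth P a → InV P v → ¬ IsT P v →
  (∀ w, IsT P w → ¬ Nb v w) → a v = 0

/-- K1: isolated wheels -/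
def ST_K1 : Prop := ∀ (P : Pen) (a : Lam → ℝ) (c : Lam), Orth P a → P.n c = 1 →
  (∀ j, (3 - 2 * g) / 2 < P.h c j) → 2 * a c = ∑ j, a (rim c j)

/-- K2: rings without wheels -/
def ST_K2 : Prop := ∀ (P : Pen) (a : Lam → ℝ) (z : Lam), Orth P a → P.n z = 2 →
  (∀ j, (3 * g - 5) / 2 < P.h z j) → ∑ k, (a (hb z k) + a (pv z k) - 2 * a (qv z k)) = 0

/-- K3: rings of five wheels -/
def ST_K3 : Prop := ∀ (P : Pen) (a : Lam → ℝ) (u : Lam), Orth P a → P.n u = 4 →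
  (∀ j, (8 - 5 * g) / 2 < P.h u j) →
  ∑ j, (∑ i, a (rim (vc u j) i) - 2 * a (vc u j) + a (xv u j) - 2 * a (yv u j)) = 0

/-! ### Pointwise bounds -/

/-- M1: full rings -/
def ST_M1 : Prop := ∀ (P : Pen) (a : Lam → ℝ) (z : Lam) (M : ℝ), Sup4 P a → Orth P a → FR P z →
  Near P a 4 z M → ∀ k, |a (hb z k)| ≤ 200 * M ∧ |a (pv z k)| ≤ 200 * M ∧ |a (qv z k)| ≤ 200 * M

/-- M2: the five wheels around a point of index 4 -/
def ST_M2 : Prop := ∃ C : ℝ, 0 ≤ C ∧ ∀ (P : Pen) (a : Lam → ℝ) (u : Lam) (M : ℝ), Sup4 P a →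
  Orth P a → P.n u = 4 → (∀ j, P.h u j < (2 * g - 3) / 2) → Near P a 12 u M →
  ∀ j, |a (vc u j)| ≤ C * M

/-- M3: wheels -/
def ST_M3 : Prop := ∃ C : ℝ, 0 ≤ C ∧ ∀ (P : Pen) (a : Lam → ℝ) (c : Lam) (M : ℝ), Sup4 P a →
  Orth P a → Wh P c → Near P a 20 c M → |a c| ≤ C * M ∧ ∀ j, |a (rim c j)| ≤ C * M

/-- M4: hubs of degree 4 -/
def ST_M4 : Prop := ∃ C : ℝ, 0 ≤ C ∧ ∀ (P : Pen) (a : Lam → ℝ) (c : Lam) (m : ZMod 5) (M : ℝ),
  Sup4 P a → Orth P a → X1 P c m → Near P a 30 c M → |a c| ≤ C * M ∧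
  |a (rim c (m + 1))| ≤ C * M ∧ |a (rim c (m - 1))| ≤ C * M ∧ |a (rim c (m - 3))| ≤ C * M

/-- M5: all vertices of index 1 or 3 -/
def ST_M5 : Prop := ∃ C : ℝ, 0 ≤ C ∧ ∀ (P : Pen) (a : Lam → ℝ) (K : Lam) (M : ℝ),
  Sup4 P a → Orth P a → (P.n K = 1 ∨ P.n K = 3) → Near P a 40 K M → |a K| ≤ C * M

/-- CLR: the neighbour sums at the vertices of degree 3 control `a` -/
def ST_CLR : Prop := ∃ C : ℝ, 0 < C ∧ ∀ (P : Pen) (a : Lam → ℝ), Sq a → Sup4 P a → Orth P a →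
  Summable (fun K => rr P a K ^ 2) ∧ ∑' K, a K ^ 2 ≤ C * ∑' K, rr P a K ^ 2

/-! ### Operators -/

/-- O1: closed range theorem -/
def ST_O1 : Prop := ∀ (X Y : Type) [NormedAddCommGroup X] [InnerProductSpace ℝ X]
  [CompleteSpace X] [NormedAddCommGroup Y] [InnerProductSpace ℝ Y] [CompleteSpace Y]
  (B : X →L[ℝ] Y) (B' : Y →L[ℝ] X) (c : ℝ), 0 < c →
  (∀ x y, inner ℝ (B x) y = inner ℝ x (B' y)) →
  (∀ x, (∀ x', B x' = 0 → inner ℝ x x' = 0) → c * ‖x‖ ≤ ‖B x‖) →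
  ∀ y, (∀ y', B' y' = 0 → inner ℝ y y' = 0) → c * ‖y‖ ≤ ‖B' y‖

/-- O2: functions on the vertices of degree 3 -/
def ST_O2 : Prop := ∃ C : ℝ, 0 < C ∧ ∀ (P : Pen) (b : Lam → ℝ), Sq b →
  (∀ K, ¬ IsT P K → b K = 0) →
  (∀ d : Lam → ℝ, Sq d → (∀ K, ¬ IsT P K → d K = 0) → (∀ K, InV P K → adj d K = 0) →
    ∑' K, b K * d K = 0) →
  ∑' K, b K ^ 2 ≤ C * ∑' K, (ind (InV P K) * adj b K) ^ 2

/-- O3: the operator `-H - 3` on real functions -/
def ST_O3 : Prop := ∃ C : ℝ, 0 < C ∧ ∀ (P : Pen) (f : Lam → ℝ), Sq f → Sup P f →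
  (∀ d : Lam → ℝ, Sq d → Sup P d → (∀ K, uu P 0 d K = 0) → ∑' K, f K * d K = 0) →
  ∑' K, f K ^ 2 ≤ C * ∑' K, uu P 0 f K ^ 2

/-- O4: the operator `H + 3` is bounded below on the complement of its kernel -/
def ST_O4 : Prop := ∀ (θ : ℂ) (H : Hil θ →L[ℂ] Hil θ), NonSing θ → IsLap θ H →
  ∃ c : ℝ, 0 < c ∧ ∀ x : Hil θ, (∀ y : Hil θ, H y = (-3 : ℂ) • y → inner ℂ y x = (0 : ℂ)) →
    c * ‖x‖ ≤ ‖H x + (3 : ℂ) • x‖

/-- O5: spectrum of a self-adjoint operator near 0 -/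
def ST_O5 : Prop := ∀ (E : Type) [NormedAddCommGroup E] [InnerProductSpace ℂ E] [CompleteSpace E]
  (T : E →L[ℂ] E) (c : ℝ), IsSelfAdjoint T → 0 < c →
  (∀ x, (∀ y, T y = 0 → inner ℂ y x = (0 : ℂ)) → c * ‖x‖ ≤ ‖T x‖) →
  ∀ t : ℝ, t ≠ 0 → |t| < c → (t : ℂ) ∉ spectrum ℂ T

/-- O6: the gap above `-3` -/
def ST_O6 : Prop := ∀ (θ : ℂ) (H : Hil θ →L[ℂ] Hil θ), NonSing θ → IsLap θ H →
  ∃ s : ℝ, 0 < s ∧ ∀ E : ℝ, -3 < E → E < -3 + s → (E : ℂ) ∉ spectrum ℂ H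

/-- O7: the eigenspace of `-3` has infinite dimension -/
def ST_O7 : Prop := ∀ (θ : ℂ) (H : Hil θ →L[ℂ] Hil θ), NonSing θ → IsLap θ H →
  ∀ n : ℕ, ∃ ψ : Fin n → Hil θ, LinearIndependent ℂ ψ ∧ ∀ i, H (ψ i) = (-3 : ℂ) • ψ i

end Pool.Agent.Helper69.ISO
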