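import Pool.Agent.Helper69.ISO.Sheet
import Pool.Agent.Helper79.PN.Lem

/-!
Project ISO: tools for `Bx` and `Near`.
-/

set_option autoImplicit false

open scoped Classical

namespace Pool.Agent.Helper69.ISO

open Pool.Agent.Helper79.PN

theorem sup_of_sup4 {P : Pen} {a : Lam → ℝ} (h : Sup4 P a) : Sup P a :=
  fun K hK => h K (Or.inl hK)

theorem zero_mem_Bx (n : ℕ) : (0 : Lam) ∈ Bx n := by
  unfold Bx
  rw [Fintype.mem_piFinset]
  intro i
  rw [Finset.mem_Icc]
  constructor <;> simp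

theorem near_nonneg {P : Pen} {a : Lam → ℝ} {n : ℕ} {c : Lam} {M : ℝ} (h : Near P a n c M) :
    0 ≤ M := (abs_nonneg _).trans (h 0 (zero_mem_Bx n))

theorem add_mem_Bx {m n : ℕ} {D E : Lam} (hD : D ∈ Bx m) (hE : E ∈ Bx n) : D + E ∈ Bx (m + n) := by
  unfold Bx at *
  rw [Fintype.mem_piFinset] at *
  intro i
  have h1 := hD i
  have h2 := hE i
  rw [Finset.mem_Icc] at *
  push_cast
  constructor
  · have := h1.1; have := h2.1; show _ ≤ D i + E i; linarith
  · have := h1.2; have := h2.2; show D i + E i ≤ _; linarith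

theorem neg_mem_Bx {n : ℕ} {D : Lam} (hD : D ∈ Bx n) : -D ∈ Bx n := by
  unfold Bx at *
  rw [Fintype.mem_piFinset] at *
  intro i
  have h1 := hD i
  rw [Finset.mem_Icc] at *
  constructor
  · have := h1.2; show _ ≤ -D i; linarith
  · have := h1.1; show -D i ≤ _; linarith

theorem e_mem_Bx (i : ZMod 5) : e i ∈ Bx 1 := by
  unfold Bx e
  rw [Fintype.mem_piFinset]
  intro j
  rw [Finset.mem_Icc]
  by_cases h : j = i
  · subst h; simp
  · simp [Pi.single_eq_of_ne h]

theorem mono_Bx {m n : ℕ} (h : m ≤ n) {D : Lam} (hD : D ∈ Bx m) : D ∈ Bx n := by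
  unfold Bx at *
  rw [Fintype.mem_piFinset] at *
  intro i
  have h1 := hD i
  rw [Finset.mem_Icc] at *
  have : (m : ℤ) ≤ n := by exact_mod_cast h
  constructor
  · have := h1.1; linarith
  · have := h1.2; linarith

/-- move the base point -/
theorem near_move {P : Pen} {a : Lam → ℝ} {n m : ℕ} {c c' : Lam} {M : ℝ} (h : Near P a n c M)
    (D : Lam) (k : ℕ) (hD : D ∈ Bx k) (hc : c' = c + D) (hk : k + m ≤ n) : Near P a m c' M := by
  intro E hE
  subst hc
  rw [add_assoc]
  exact h _ (mono_Bx hk (add_mem_Bx hD hE))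

/-- the same with implicit arguments (works with large numerals) -/
theorem near_mv {P : Pen} {a : Lam → ℝ} {n : ℕ} (m : ℕ) {c c' : Lam} {M : ℝ}
    (h : Near P a n c M) {D : Lam} {k : ℕ} (hD : D ∈ Bx k) (hc : c' = c + D) (hk : k + m ≤ n) :
    Near P a m c' M := near_move h D k hD hc hk

end Pool.Agent.Helper69.ISO
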