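import Pool.Agent.Helper69.ISO.Sheet
import Pool.Agent.Helper79.PN.Lem

/-!
Project ISO: a checker for the kernel functions.
-/

set_option autoImplicit false

open scoped Classical

namespace Pool.Agent.Helper69.ISO.Chk

open Pool.Agent.Helper79.PN

/-! ### displacements -/

theorem shift_e (P : Pen) (i : ZMod 5) (m : ℤ) (u : Lam) :
    P.n (u + m • e i) = P.n u + m ∧ ∀ j, P.h (u + m • e i) j = P.h u j + m * cc (i - j) := by
  induction m using Int.induction_on with
  | zero => simp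
  | succ k ih =>
    have h : u + ((k : ℤ) + 1) • e i = (u + (k : ℤ) • e i) + e i := by
      rw [add_smul, one_smul, add_assoc]
    rw [h]
    refine ⟨by rw [P.n_add, ih.1]; ring, fun j => ?_⟩
    rw [P.h_add, ih.2 j]
    push_cast
    ring
  | pred k ih =>
    have h : u + (-(k : ℤ) - 1) • e i = (u + (-(k : ℤ)) • e i) - e i := by
      rw [sub_smul, one_smul, add_sub_assoc]
    rw [h]
    refine ⟨by rw [P.n_sub, ih.1]; ring, fun j => ?_⟩
    rw [P.h_sub, ih.2 j]
    push_cast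
    ring

theorem shift_s (P : Pen) (D : Lam) (u : Lam) (s : Finset (ZMod 5)) :
    P.n (u + ∑ k ∈ s, D k • e k) = P.n u + ∑ k ∈ s, D k ∧
      ∀ j, P.h (u + ∑ k ∈ s, D k • e k) j = P.h u j + ∑ k ∈ s, (D k : ℝ) * cc (k - j) := by
  induction s using Finset.induction_on with
  | empty => simp
  | insert i s hi ih =>
    rw [Finset.sum_insert hi, Finset.sum_insert hi]
    have h : u + (D i • e i + ∑ k ∈ s, D k • e k) = (u + ∑ k ∈ s, D k • e k) + D i • e i := by
      abel
    rw [h]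
    obtain ⟨h1, h2⟩ := shift_e P i (D i) (u + ∑ k ∈ s, D k • e k)
    refine ⟨by rw [h1, ih.1]; ring, fun j => ?_⟩
    rw [h2 j, ih.2 j, Finset.sum_insert hi]
    ring

theorem sum_e (D : Lam) : ∑ k, D k • e k = D := by
  funext j
  rw [Finset.sum_apply, Finset.sum_eq_single j]
  · simp [e]
  · intro k _ hk
    simp [e, Pi.single_eq_of_ne (Ne.symm hk)]
  · intro h
    exact absurd (Finset.mem_univ j) h

def AA (D : Lam) (j : ZMod 5) : ℤ := 2 * D j - D (j + 1) - D (j - 1)
def BB (D : Lam) (j : ZMod 5) : ℤ := D (j + 1) + D (j - 1) - D (j + 2) - D (j - 2)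

theorem sum_cc (D : Lam) (j : ZMod 5) :
    ∑ k, (D k : ℝ) * cc (k - j) = ((AA D j : ℝ) + BB D j * g) / 2 := by
  have h1 : ∑ k, (D k : ℝ) * cc (k - j) = ∑ i : ZMod 5, (D (j + i) : ℝ) * cc i := by
    refine (Fintype.sum_equiv (Equiv.addLeft j) _ _ fun i => ?_).symm
    simp
  have h2 : ∑ i : ZMod 5, (D (j + i) : ℝ) * cc i = (D (j + 0) : ℝ) * cc 0 +
      (D (j + 1) : ℝ) * cc 1 + (D (j + 2) : ℝ) * cc 2 + (D (j + 3) : ℝ) * cc 3 +
      (D (j + 4) : ℝ) * cc 4 := Fin.sum_univ_five _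
  have e3 : j + 3 = j - 2 := by
    have h : (5 : ZMod 5) = 0 := rfl
    linear_combination h
  have e4 : j + 4 = j - 1 := by
    have h : (5 : ZMod 5) = 0 := rfl
    linear_combination h
  rw [h1, h2, cc0, cc1, cc2, cc3, cc4, add_zero, e3, e4]
  unfold AA BB
  push_cast
  ring

/-- coordinates of a displaced point -/
theorem shift (P : Pen) (u D : Lam) : P.n (u + D) = P.n u + ∑ k, D k ∧
    ∀ j, 2 * P.h (u + D) j = 2 * P.h u j + ((AA D j : ℝ) + BB D j * g) := by
  obtain ⟨h1, h2⟩ := shift_s P D u Finset.univ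
  rw [sum_e] at h1 h2
  refine ⟨h1, fun j => ?_⟩
  rw [h2 j, sum_cc]
  ring

/-! ### comparison -/

/-- sufficient for `a + b g ≤ 0` -/
def np (a b : ℤ) : Bool :=
  (decide (a = 0) && decide (b = 0)) || (decide (0 ≤ b) && decide (10000 * a + 16181 * b ≤ 0)) ||
    (decide (b ≤ 0) && decide (1000 * a + 1618 * b ≤ 0))

theorem np_sound {a b : ℤ} (h : np a b = true) : (a : ℝ) + b * g ≤ 0 := by
  unfold np at h
  simp only [Bool.or_eq_true, Bool.and_eq_true, decide_eq_true_eq] at h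
  have hg1 := g_gt
  have hg2 := g_lt
  rcases h with (⟨h1, h2⟩ | ⟨h1, h2⟩) | ⟨h1, h2⟩
  · subst h1 h2
    simp
  · have h3 : (0 : ℝ) ≤ b := by exact_mod_cast h1
    have h4 : (10000 : ℝ) * a + 16181 * b ≤ 0 := by exact_mod_cast h2
    nlinarith
  · have h3 : (b : ℝ) ≤ 0 := by exact_mod_cast h1
    have h4 : (1000 : ℝ) * a + 1618 * b ≤ 0 := by exact_mod_cast h2
    nlinarith

/-- bounds `l1 + l2 g < 2 h < h1 + h2 g` -/
structure Bd where
  l1 : ℤ
  l2 : ℤ
  h1 : ℤ
  h2 : ℤ

def Bd.Ok (b : Bd) (P : Pen) (u : Lam) : Prop :=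
  ∀ j, (b.l1 : ℝ) + b.l2 * g < 2 * P.h u j ∧ 2 * P.h u j < (b.h1 : ℝ) + b.h2 * g

/-- `2 h (u + D) j ≤ c1 + c2 g` is implied -/
def up (b : Bd) (D : Lam) (j : ZMod 5) (c1 c2 : ℤ) : Bool :=
  np (b.h1 + AA D j - c1) (b.h2 + BB D j - c2)

/-- `c1 + c2 g ≤ 2 h (u + D) j` is implied -/
def lw (b : Bd) (D : Lam) (j : ZMod 5) (c1 c2 : ℤ) : Bool :=
  np (c1 - (b.l1 + AA D j)) (c2 - (b.l2 + BB D j))

theorem up_sound {b : Bd} {P : Pen} {u D : Lam} {j : ZMod 5} {c1 c2 : ℤ} (hb : b.Ok P u)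
    (h : up b D j c1 c2 = true) : 2 * P.h (u + D) j < (c1 : ℝ) + c2 * g := by
  have h1 := np_sound h
  have h2 := (hb j).2
  rw [(shift P u D).2 j]
  push_cast at h1
  linarith

theorem lw_sound {b : Bd} {P : Pen} {u D : Lam} {j : ZMod 5} {c1 c2 : ℤ} (hb : b.Ok P u)
    (h : lw b D j c1 c2 = true) : (c1 : ℝ) + c2 * g < 2 * P.h (u + D) j := by
  have h1 := np_sound h
  have h2 := (hb j).1
  rw [(shift P u D).2 j]
  push_cast at h1
  linarith

/-- all directions -/
def all5 (f : ZMod 5 → Bool) : Bool := f 0 && f 1 && f 2 && f 3 && f 4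
def any5 (f : ZMod 5 → Bool) : Bool := f 0 || f 1 || f 2 || f 3 || f 4

theorem all5_sound {f : ZMod 5 → Bool} (h : all5 f = true) : ∀ j, f j = true := by
  unfold all5 at h
  simp only [Bool.and_eq_true] at h
  intro j
  fin_cases j
  · exact h.1.1.1.1
  · exact h.1.1.1.2
  · exact h.1.1.2
  · exact h.1.2
  · exact h.2

theorem any5_sound {f : ZMod 5 → Bool} (h : any5 f = true) : ∃ j, f j = true := by
  unfold any5 at h
  simp only [Bool.or_eq_true] at h
  rcases h with (((h | h) | h) | h) | h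
  exacts [⟨0, h⟩, ⟨1, h⟩, ⟨2, h⟩, ⟨3, h⟩, ⟨4, h⟩]

/-- index of `u + D` -/
def ix (n0 : ℤ) (D : Lam) : ℤ := n0 + (D 0 + D 1 + D 2 + D 3 + D 4)

theorem ix_sound {P : Pen} {u D : Lam} {n0 : ℤ} (h : P.n u = n0) : P.n (u + D) = ix n0 D := by
  rw [(shift P u D).1, h]
  unfold ix
  congr 1
  exact Fin.sum_univ_five _

/-- `u + D` is a vertex -/
def inV (b : Bd) (n0 : ℤ) (D : Lam) : Bool :=
  if ix n0 D = 1 then all5 fun j => lw b D j 0 (-1)
  else if ix n0 D = 2 then all5 fun j => up b D j 1 1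
  else if ix n0 D = 3 then all5 fun j => lw b D j (-1) (-1)
  else if ix n0 D = 4 then all5 fun j => up b D j 0 1
  else false

/-- `u + D` is not a vertex of degree 3 -/
def noT (b : Bd) (n0 : ℤ) (D : Lam) : Bool :=
  if ix n0 D = 1 then (any5 fun j => up b D j 0 (-1)) ||
    all5 fun k => up b D (k + 2) (-1) 1 || up b D (k - 2) (-1) 1
  else if ix n0 D = 2 then (any5 fun j => lw b D j 1 1) ||
    all5 fun k => lw b D (k + 2) (-1) 0 || lw b D (k - 2) (-1) 0
  else if ix n0 D = 3 then (any5 fun j => up b D j (-1) (-1)) ||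
    all5 fun k => up b D (k + 2) 1 0 || up b D (k - 2) 1 0
  else if ix n0 D = 4 then (any5 fun j => lw b D j 0 1) ||
    all5 fun k => lw b D (k + 2) 1 (-1) || lw b D (k - 2) 1 (-1)
  else true

theorem inV_sound {b : Bd} {P : Pen} {u D : Lam} {n0 : ℤ} (hb : b.Ok P u) (hn : P.n u = n0)
    (h : inV b n0 D = true) : InV P (u + D) := by
  have hi : P.n (u + D) = ix n0 D := ix_sound hn
  unfold inV at h
  split_ifs at h with h1 h2 h3 h4
  · refine Or.inl ⟨by rw [hi, h1], fun j => ?_⟩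
    have := lw_sound hb (all5_sound h j)
    push_cast at this
    linarith
  · refine Or.inr (Or.inl ⟨by rw [hi, h2], fun j => ?_⟩)
    have := up_sound hb (all5_sound h j)
    push_cast at this
    linarith
  · refine Or.inr (Or.inr (Or.inl ⟨by rw [hi, h3], fun j => ?_⟩))
    have := lw_sound hb (all5_sound h j)
    push_cast at this
    linarith
  · refine Or.inr (Or.inr (Or.inr ⟨by rw [hi, h4], fun j => ?_⟩))
    have := up_sound hb (all5_sound h j)
    push_cast at this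
    linarith

/-- index of the vertices of degree 3, with the inequalities -/
theorem isT_cases {P : Pen} {w : Lam} (h : IsT P w) :
    (P.n w = 1 ∧ (∀ j, -g < 2 * P.h w j) ∧
      ∃ k, g - 1 < 2 * P.h w (k + 2) ∧ g - 1 < 2 * P.h w (k - 2)) ∨
    (P.n w = 2 ∧ (∀ j, 2 * P.h w j < 1 + g) ∧
      ∃ k, 2 * P.h w (k + 2) < -1 ∧ 2 * P.h w (k - 2) < -1) ∨
    (P.n w = 3 ∧ (∀ j, -(1 + g) < 2 * P.h w j) ∧
      ∃ k, 1 < 2 * P.h w (k + 2) ∧ 1 < 2 * P.h w (k - 2)) ∨
    (P.n w = 4 ∧ (∀ j, 2 * P.h w j < g) ∧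
      ∃ k, 2 * P.h w (k + 2) < 1 - g ∧ 2 * P.h w (k - 2) < 1 - g) := by
  obtain ⟨k, h | h | h | h⟩ := h
  · obtain ⟨h1, h2, h3, h4⟩ := h
    refine Or.inl ⟨h1, fun j => ?_, k, by linarith, by linarith⟩
    rcases h2 with ⟨-, h5⟩ | ⟨h5, -⟩ | ⟨h5, -⟩ | ⟨h5, -⟩
    · linarith [h5 j]
    all_goals omega
  · obtain ⟨h1, h2, h3, h4⟩ := h
    refine Or.inr (Or.inl ⟨h1, fun j => ?_, k, by linarith, by linarith⟩)
    rcases h2 with ⟨h5, -⟩ | ⟨-, h5⟩ | ⟨h5, -⟩ | ⟨h5, -⟩
    · omega
    · linarith [h5 j]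
    all_goals omega
  · obtain ⟨h1, h2, h3, h4⟩ := h
    rw [P.mir_n, neg_neg] at h1
    rw [P.mir_h, neg_neg] at h3 h4
    refine Or.inr (Or.inr (Or.inl ⟨by omega, fun j => ?_, k, by linarith, by linarith⟩))
    rcases h2 with ⟨h5, -⟩ | ⟨-, h5⟩ | ⟨h5, -⟩ | ⟨h5, -⟩
    · rw [P.mir_n, neg_neg] at h5; omega
    · have := h5 j
      rw [P.mir_h, neg_neg] at this
      linarith
    · rw [P.mir_n, neg_neg] at h5; omega
    · rw [P.mir_n, neg_neg] at h5; omega
  · obtain ⟨h1, h2, h3, h4⟩ := h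
    rw [P.mir_n, neg_neg] at h1
    rw [P.mir_h, neg_neg] at h3 h4
    refine Or.inr (Or.inr (Or.inr ⟨by omega, fun j => ?_, k, by linarith, by linarith⟩))
    rcases h2 with ⟨-, h5⟩ | ⟨h5, -⟩ | ⟨h5, -⟩ | ⟨h5, -⟩
    · have := h5 j
      rw [P.mir_h, neg_neg] at this
      linarith
    · rw [P.mir_n, neg_neg] at h5; omega
    · rw [P.mir_n, neg_neg] at h5; omega
    · rw [P.mir_n, neg_neg] at h5; omega

theorem noT_sound {b : Bd} {P : Pen} {u D : Lam} {n0 : ℤ} (hb : b.Ok P u) (hn : P.n u = n0)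
    (h : noT b n0 D = true) : ¬ IsT P (u + D) := by
  have hi : P.n (u + D) = ix n0 D := ix_sound hn
  intro hT
  unfold noT at h
  rcases isT_cases hT with ⟨h1, h2, k, h3, h4⟩ | ⟨h1, h2, k, h3, h4⟩ | ⟨h1, h2, k, h3, h4⟩ |
    ⟨h1, h2, k, h3, h4⟩
  · rw [hi] at h1
    rw [if_pos h1, Bool.or_eq_true] at h
    rcases h with h | h
    · obtain ⟨j, hj⟩ := any5_sound h
      have h5 := up_sound hb hj
      push_cast at h5
      linarith [h2 j]
    · have h6 := all5_sound h k
      rw [Bool.or_eq_true] at h6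
      rcases h6 with h6 | h6
      · have h5 := up_sound hb h6
        push_cast at h5
        linarith
      · have h5 := up_sound hb h6
        push_cast at h5
        linarith
  · rw [hi] at h1
    rw [if_neg (by omega), if_pos h1, Bool.or_eq_true] at h
    rcases h with h | h
    · obtain ⟨j, hj⟩ := any5_sound h
      have h5 := lw_sound hb hj
      push_cast at h5
      linarith [h2 j]
    · have h6 := all5_sound h k
      rw [Bool.or_eq_true] at h6
      rcases h6 with h6 | h6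
      · have h5 := lw_sound hb h6
        push_cast at h5
        linarith
      · have h5 := lw_sound hb h6
        push_cast at h5
        linarith
  · rw [hi] at h1
    rw [if_neg (by omega), if_neg (by omega), if_pos h1, Bool.or_eq_true] at h
    rcases h with h | h
    · obtain ⟨j, hj⟩ := any5_sound h
      have h5 := up_sound hb hj
      push_cast at h5
      linarith [h2 j]
    · have h6 := all5_sound h k
      rw [Bool.or_eq_true] at h6
      rcases h6 with h6 | h6
      · have h5 := up_sound hb h6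
        push_cast at h5
        linarith
      · have h5 := up_sound hb h6
        push_cast at h5
        linarith
  · rw [hi] at h1
    rw [if_neg (by omega), if_neg (by omega), if_neg (by omega), if_pos h1,
      Bool.or_eq_true] at h
    rcases h with h | h
    · obtain ⟨j, hj⟩ := any5_sound h
      have h5 := lw_sound hb hj
      push_cast at h5
      linarith [h2 j]
    · have h6 := all5_sound h k
      rw [Bool.or_eq_true] at h6
      rcases h6 with h6 | h6
      · have h5 := lw_sound hb h6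
        push_cast at h5
        linarith
      · have h5 := lw_sound hb h6
        push_cast at h5
        linarith

end Pool.Agent.Helper69.ISO.Chk
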