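import Pool.Agent.Helper69.ISO.Fin

/-!
Project ISO: the final statement.
-/

set_option autoImplicit false

open scoped Classical

namespace Pool.Agent.Helper69.ISO

open Pool.Agent.Helper79.PN

/-- O8: there is spectrum above `-3` -/
def ST_O8 : Prop := ∀ (θ : ℂ) (H : Hil θ →L[ℂ] Hil θ), NonSing θ → IsLap θ H →
  ∃ E : ℝ, -3 < E ∧ (E : ℂ) ∈ spectrum ℂ H

theorem spec_of_eig {E : Type} [NormedAddCommGroup E] [NormedSpace ℂ E] (H : E →L[ℂ] E) (x : E)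
    (c : ℂ) (hx : x ≠ 0) (h : H x = c • x) : c ∈ spectrum ℂ H := by
  rw [spectrum.mem_iff]
  rintro ⟨u, hu⟩
  apply hx
  have h1 : (algebraMap ℂ (E →L[ℂ] E) c - H) x = 0 := by
    rw [Algebra.algebraMap_eq_smul_one]
    simp [h]
  rw [← hu] at h1
  have h2 : ((↑u⁻¹ : E →L[ℂ] E) * (↑u : E →L[ℂ] E)) x = x := by
    rw [Units.inv_mul]
    rfl
  rw [← h2]
  show (↑u⁻¹ : E →L[ℂ] E) ((↑u : E →L[ℂ] E) x) = 0
  rw [h1, map_zero]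

theorem final (hO6 : ST_O6) (hO8 : ST_O8) : (∃ θ : ℂ, NonSing θ) ∧ ∀ θ : ℂ, NonSing θ →
    ∃ H : Op θ, IsLapl H ∧ (∀ H' : Op θ, IsLapl H' → H' = H) ∧ SelfAdj H ∧
      (∀ n : ℕ, ∃ ψ : Fin n → Hl θ, LinearIndependent ℂ ψ ∧ ∀ i, H (ψ i) = (-3 : ℂ) • ψ i) ∧
      (∃ s : ℝ, 0 < s ∧ ∀ E : ℝ, |E + 3| < s → (InSpec H E ↔ E = -3)) ∧
      (∃ E : ℝ, -3 < E ∧ InSpec H E) ∧ (∀ E : ℝ, -16 / 5 ≤ E → E < -3 → ¬ InSpec H E) ∧
      (∃ E : ℝ, E < -16 / 5 ∧ InSpec H E) ∧ ¬ Perfect {E : ℝ | InSpec H E} := by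
  refine ⟨fin_gap.1, fun θ hθ => ?_⟩
  obtain ⟨H, h1, h2, h3, h4, ⟨ψ, h5, h6⟩, h7⟩ := fin_gap.2 θ hθ
  obtain ⟨s, hs, hs'⟩ := hO6 θ H hθ h1
  have h8 : (((-3 : ℝ) : ℝ) : ℂ) ∈ spectrum ℂ H := by
    have h9 := spec_of_eig H ψ (-3) h5 h6
    rwa [show (((-3 : ℝ) : ℝ) : ℂ) = -3 by push_cast; rfl]
  have hiso : ∃ s : ℝ, 0 < s ∧ ∀ E : ℝ, |E + 3| < s → ((E : ℂ) ∈ spectrum ℂ H ↔ E = -3) := by
    refine ⟨min s (1 / 5), lt_min hs (by norm_num), fun E hE => ⟨fun hE' => ?_, fun hE' => ?_⟩⟩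
    · rw [abs_lt] at hE
      have h9 := min_le_left s (1 / 5 : ℝ)
      have h10 := min_le_right s (1 / 5 : ℝ)
      rcases lt_trichotomy E (-3) with h | h | h
      · exact absurd hE' (h4 E (by linarith [hE.1]) h)
      · exact h
      · exact absurd hE' (hs' E h (by linarith [hE.2]))
    · rw [hE']
      exact h8
  refine ⟨H, h1, h3, h2, fun n => eig_inf θ H hθ h1 n, hiso, hO8 θ H hθ h1, h4, h7, ?_⟩
  intro hp
  obtain ⟨s', hs1, hs2⟩ := hiso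
  have h9 := hp.acc (-3) h8
  rw [accPt_iff_nhds] at h9
  obtain ⟨y, ⟨hy1, hy2⟩, hy3⟩ := h9 (Metric.ball (-3) s') (Metric.ball_mem_nhds _ hs1)
  apply hy3
  refine (hs2 y ?_).1 hy2
  rw [Metric.mem_ball, Real.dist_eq] at hy1
  rwa [show y + 3 = y - -3 by ring]

end Pool.Agent.Helper69.ISO
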