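import Pool.Agent.Helper69.ISO.M1

/-!
Project ISO, row M3: wheels.
-/

set_option autoImplicit false

open scoped Classical

namespace Pool.Agent.Helper69.ISO

open Pool.Agent.Helper79.PN

theorem five (i : ZMod 5) : i + 2 + 1 = i + 3 ∧ i + 2 - 1 = i + 1 := by
  constructor <;> ring

/-- the centre of the ring in which `c` is a hub -/
theorem hb_back (c : Lam) (i : ZMod 5) :
    hb (c - e (i + 2) + e (i + 1) + e (i + 3)) (i + 2) = c := by
  unfold hb
  rw [(five i).1, (five i).2]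
  abel

theorem z_move (c : Lam) (i : ZMod 5) :
    -e (i + 2) + e (i + 1) + e (i + 3) ∈ Bx 3 ∧
      c - e (i + 2) + e (i + 1) + e (i + 3) = c + (-e (i + 2) + e (i + 1) + e (i + 3)) := by
  refine ⟨?_, ?_⟩
  · exact add_mem_Bx (m := 2) (n := 1) (add_mem_Bx (m := 1) (n := 1) (neg_mem_Bx (e_mem_Bx _))
      (e_mem_Bx _)) (e_mem_Bx _)
  · abel

theorem u_move (c : Lam) (i : ZMod 5) : ∃ D ∈ Bx 5,
    c - e i + e (i + 1) + e (i + 1) + e (i - 1) + e (i - 1) = c + D := by
  have h1 : -e i + e (i + 1) ∈ Bx 2 :=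
    add_mem_Bx (m := 1) (n := 1) (neg_mem_Bx (e_mem_Bx _)) (e_mem_Bx _)
  have h2 : -e i + e (i + 1) + e (i + 1) ∈ Bx 3 := add_mem_Bx (m := 2) (n := 1) h1 (e_mem_Bx _)
  have h3 : -e i + e (i + 1) + e (i + 1) + e (i - 1) ∈ Bx 4 :=
    add_mem_Bx (m := 3) (n := 1) h2 (e_mem_Bx _)
  exact ⟨_, add_mem_Bx (m := 4) (n := 1) h3 (e_mem_Bx (i - 1)), by abel⟩

theorem vc_back (c : Lam) (i : ZMod 5) :
    vc (c - e i + e (i + 1) + e (i + 1) + e (i - 1) + e (i - 1)) i = c := by
  unfold vc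
  abel

theorem M3 (hNS : ST_NSL) (hG6 : ST_G6) (hG8 : ST_G8) (hK1 : ST_K1) (hB1 : ST_B1) (hM1 : ST_M1)
    (hM2 : ST_M2) : ST_M3 := by
  obtain ⟨C, hC0, hC⟩ := hM2
  refine ⟨C + 300, by linarith, ?_⟩
  intro P a c M ha hO hW hN
  have hM : 0 ≤ M := near_nonneg hN
  have hB := hB1 P a c M (sup_of_sup4 ha) hW
    (near_mv 1 hN (zero_mem_Bx 0) (by rw [add_zero]) (by norm_num))
  have hCM : 0 ≤ C * M := mul_nonneg hC0 hM
  have key : |a c| ≤ (C + 200) * M := by
    by_cases h1 : ∀ j, (3 - 2 * g) / 2 < P.h c j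
    · have h2 := hK1 P a c hO hW.1 h1
      have h3 : |∑ j : ZMod 5, (a (rim c j) + a c / 2)| ≤ ∑ _j : ZMod 5, 3 * M :=
        (Finset.abs_sum_le_sum_abs _ _).trans (Finset.sum_le_sum fun k _ => hB k)
      rw [Finset.sum_add_distrib, ← h2, Finset.sum_const, Finset.sum_const, Finset.card_univ,
        ZMod.card] at h3
      simp only [nsmul_eq_mul] at h3
      push_cast at h3
      rw [abs_le] at h3 ⊢
      constructor <;> linarith [h3.1, h3.2]
    · push Not at h1
      obtain ⟨i, hi⟩ := h1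
      have hi' : P.h c i < (3 - 2 * g) / 2 :=
        lt_of_le_of_ne hi (hNS.1 P c i hW.1).2
      have ring_case : ∀ i : ZMod 5, P.h c i < (3 - 2 * g) / 2 →
          P.h c (i - 1) < (3 - 2 * g) / 2 → |a c| ≤ (C + 200) * M := by
        intro i h2 h3
        have h4 := hG6 P c i hW h2 h3
        obtain ⟨z1, z2⟩ := z_move c i
        have h5 := (hM1 P a _ M ha hO h4 (near_mv 4 hN z1 z2 (by norm_num)) (i + 2)).1
        rw [hb_back] at h5
        linarith
      by_cases h2 : P.h c (i - 1) < (3 - 2 * g) / 2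
      · exact ring_case i hi' h2
      · by_cases h3 : P.h c (i + 1) < (3 - 2 * g) / 2
        · refine ring_case (i + 1) h3 ?_
          rw [add_sub_cancel_right]
          exact hi'
        · push Not at h2 h3
          obtain ⟨h4, h5⟩ := hG8 P c i hW hi' h2 h3
          obtain ⟨D, u1, u2⟩ := u_move c i
          have h7 : Near P a 12 (c - e i + e (i + 1) + e (i + 1) + e (i - 1) + e (i - 1)) M :=
            near_mv 12 hN u1 u2 (by norm_num)
          have h6 := hC P a (c - e i + e (i + 1) + e (i + 1) + e (i - 1) + e (i - 1)) M ha hO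
            h4 h5 h7 i
          rw [vc_back] at h6
          linarith
  refine ⟨by linarith, fun j => ?_⟩
  have h1 := hB j
  rw [abs_le] at h1 key ⊢
  constructor <;> linarith [h1.1, h1.2, key.1, key.2]

end Pool.Agent.Helper69.ISO
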