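import Pool.Agent.Helper34.ISO.CLR
import Pool.Agent.Helper34.ISO.O1
import Pool.Agent.Helper34.ISO.O2
import Pool.Agent.Helper46.ISO.O5
import Pool.Agent.Helper49.ISO.M34
import Pool.Agent.Helper49.ISO.B2
import Pool.Agent.Helper49.ISO.G23
import Pool.Agent.Helper53.ISO.NSL
import Pool.Agent.Helper53.ISO.O4
import Pool.Agent.Helper53.ISO.O7
import Pool.Agent.Helper8.ISO.G4
import Pool.Agent.Helper85.ISO.O3
import Pool.Agent.Helper93.ISO.M5
import Pool.Agent.Helper93.ISO.G1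
import Pool.Agent.Helper93.ISO.T4C
import Pool.Agent.Helper97.ISO.G5
import Pool.Agent.Helper97.ISO.M2
import Pool.Agent.Helper99.ISO.B13
import Pool.Agent.Helper99.ISO.G67
import Pool.Agent.Helper99.ISO.G89
import Pool.Agent.Helper69.ISO.M3
import Pool.Agent.Helper79.PN.Fin
import Pool.Agent.Helper79.PN.Pub

/-!
Project ISO: assembly.
-/

set_option autoImplicit false

open scoped Classical

namespace Pool.Agent.Helper69.ISO

open Pool.Agent.Helper79.PN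

/-- there is a gap above `-3` -/
theorem gap_above (hK0 : ST_K0) (hK1 : ST_K1) (hK2 : ST_K2) (hK3 : ST_K3) : ST_O6 := by
  have hNS : ST_NSL := Pool.Agent.Helper53.ISO.st_NSL
  have hG5 : ST_G5 := Pool.Agent.Helper97.ISO.G5
  have hG6 : ST_G6 := Pool.Agent.Helper99.ISO.G6
  have hG7 : ST_G7 := Pool.Agent.Helper99.ISO.G7 hG5
  have hB1 : ST_B1 := Pool.Agent.Helper99.ISO.B1
  have hB3 : ST_B3 := Pool.Agent.Helper99.ISO.B3
  have hM1 : ST_M1 := M1 (Pool.Agent.Helper8.ISO.G4 hNS) hB1 Pool.Agent.Helper49.ISO.B2 hK2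
  have hM2 : ST_M2 :=
    Pool.Agent.Helper97.ISO.M2 hNS hG6 hG7 Pool.Agent.Helper99.ISO.G9 hB1 hB3 hM1 hK3
  have hM3 : ST_M3 := M3 hNS hG6 Pool.Agent.Helper99.ISO.G8 hK1 hB1 hM1 hM2
  have hM4 : ST_M4 := Pool.Agent.Helper49.ISO.M4 hG5 hM1 hM3 hB3
  have hM5 : ST_M5 := Pool.Agent.Helper93.ISO.M5 Pool.Agent.Helper93.ISO.G1
    Pool.Agent.Helper49.ISO.G2 Pool.Agent.Helper93.ISO.T4C hK0 hM3 hM4
  have hO3 : ST_O3 := Pool.Agent.Helper85.ISO.O3 (Pool.Agent.Helper34.ISO.st_O2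
    (Pool.Agent.Helper34.ISO.st_CLR hM5) Pool.Agent.Helper34.ISO.st_O1)
  exact Pool.Agent.Helper46.ISO.O6
    (Pool.Agent.Helper53.ISO.st_O4 fin_PEN fin_NBX hO3) Pool.Agent.Helper46.ISO.O5

theorem eig_inf : ST_O7 := Pool.Agent.Helper53.ISO.st_O7 fin_PEN fin_NBX fin_EGA fin_DEN

end Pool.Agent.Helper69.ISO
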