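import Pool.Agent.Helper69.ISO.Sheet
import Pool.Agent.Helper79.PN.Lem

/-!
Project ISO, row K0: vertices without neighbours of degree 3.
-/

set_option autoImplicit false

open scoped Classical

namespace Pool.Agent.Helper69.ISO

open Pool.Agent.Helper79.PN

theorem K0 : ST_K0 := by
  intro P a v hO h1 h2 h3
  have hK : Ker P (fun K => if K = v then 1 else 0) := by
    refine ⟨?_, ?_, ?_⟩
    · refine (Set.finite_singleton v).subset fun K hK => ?_
      rw [Function.mem_support] at hK
      by_contra hc
      exact hK (if_neg hc)
    · intro K hK
      refine if_neg ?_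
      rintro rfl
      rcases hK with hK | hK
      · exact hK h1
      · exact h2 hK
    · intro w hw
      unfold adj
      refine Finset.sum_eq_zero fun i _ => ?_
      have h4 : w + e i ≠ v := by
        intro h
        exact h3 w hw ⟨i, Or.inr (by rw [← h, add_sub_cancel_right])⟩
      have h5 : w - e i ≠ v := by
        intro h
        exact h3 w hw ⟨i, Or.inl (by rw [← h, sub_add_cancel])⟩
      show (if w + e i = v then (1 : ℝ) else 0) + (if w - e i = v then (1 : ℝ) else 0) = 0
      rw [if_neg h4, if_neg h5, add_zero]
  have h6 := hO _ hK
  rw [tsum_eq_single v] at h6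
  · simpa using h6
  · intro K hK
    rw [if_neg hK, mul_zero]

end Pool.Agent.Helper69.ISO
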