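import Pool.Agent.Helper69.ISO.Ker

/-!
Project ISO, rows K1, K2, K3: the three kernel functions.
-/

set_option autoImplicit false
set_option maxRecDepth 100000

namespace Pool.Agent.Helper69.ISO.Chk

open Pool.Agent.Helper79.PN Pool.Agent.Helper69.ISO

def L1 : List (Q × ℤ) := [
  ((0, 0, 0, 0, 0), -2),
  ((1, 0, 1, 0, 0), 1),
  ((0, 1, 0, 1, 0), 1),
  ((0, 0, 1, 0, 1), 1),
  ((1, 0, 0, 1, 0), 1),
  ((0, 1, 0, 0, 1), 1)]

def L2 : List (Q × ℤ) := [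
  ((1, -1, 0, 0, -1), 1),
  ((1, 0, 0, 0, 0), 1),
  ((-1, 1, 0, 0, 1), -2),
  ((-1, 1, -1, 0, 0), 1),
  ((0, 1, 0, 0, 0), 1),
  ((1, -1, 1, 0, 0), -2),
  ((0, -1, 1, -1, 0), 1),
  ((0, 0, 1, 0, 0), 1),
  ((0, 1, -1, 1, 0), -2),
  ((0, 0, -1, 1, -1), 1),
  ((0, 0, 0, 1, 0), 1),
  ((0, 0, 1, -1, 1), -2),
  ((-1, 0, 0, -1, 1), 1),
  ((0, 0, 0, 0, 1), 1),
  ((1, 0, 0, 1, -1), -2)]

def L3 : List (Q × ℤ) := [
  ((2, -2, 1, 0, -2), 1),
  ((1, -1, 0, 1, -2), 1),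
  ((1, -2, 1, 0, -1), 1),
  ((2, -2, 0, 1, -2), 1),
  ((1, -1, 0, 0, -1), 1),
  ((1, -2, 0, 0, -2), -2),
  ((-1, 0, -1, -1, 0), 1),
  ((-1, 1, -1, -1, 1), -2),
  ((-1, 1, -1, 0, 0), 1),
  ((-2, 2, -2, 1, 0), 1),
  ((-2, 1, -1, 0, 1), 1),
  ((-1, 1, -2, 1, 0), 1),
  ((-2, 2, -2, 0, 1), 1),
  ((-2, 1, -2, 0, 0), -2),
  ((0, -1, 0, -1, -1), 1),
  ((1, -1, 1, -1, -1), -2),
  ((1, -2, 2, -2, 0), 1),
  ((0, -1, 1, -1, 0), 1),
  ((0, -2, 2, -2, 1), 1),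
  ((1, -2, 1, -1, 0), 1),
  ((0, -1, 1, -2, 1), 1),
  ((0, -2, 1, -2, 0), -2),
  ((-1, 0, -1, 0, -1), 1),
  ((-1, 1, -1, 1, -1), -2),
  ((1, 0, -1, 1, -2), 1),
  ((0, 1, -2, 2, -2), 1),
  ((0, 0, -1, 1, -1), 1),
  ((1, 0, -2, 2, -2), 1),
  ((0, 1, -2, 1, -1), 1),
  ((0, 0, -2, 1, -2), -2),
  ((-1, -1, 0, -1, 0), 1),
  ((-1, -1, 1, -1, 1), -2),
  ((-1, 0, 1, -2, 1), 1),
  ((-2, 1, 0, -1, 1), 1),
  ((-2, 0, 1, -2, 2), 1),
  ((-1, 0, 0, -1, 1), 1),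
  ((-2, 1, 0, -2, 2), 1),
  ((-2, 0, 0, -2, 1), -2),
  ((0, -1, -1, 0, -1), 1),
  ((1, -1, -1, 1, -1), -2)]

theorem ck1 : ck (Bd.mk 3 (-2) (2 * 3 - 2 * (-2)) (-2 * 3)) 1 L1 = true := by decide +kernel
theorem ck2 : ck (Bd.mk (-5) 3 (2 * (-5) - 2 * 3) (-2 * (-5))) 2 L2 = true := by decide +kernel
theorem ck3 : ck (Bd.mk 8 (-5) (2 * 8 - 2 * (-5)) (-2 * 8)) 4 L3 = true := by decide +kernel
theorem nd1 : (L1.map Prod.fst).Nodup := by decide +kernel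
theorem nd2 : (L2.map Prod.fst).Nodup := by decide +kernel
theorem nd3 : (L3.map Prod.fst).Nodup := by decide +kernel

theorem rim_0 (u : Lam) : rim u 0 = u + lm (1, 0, 1, 0, 0) := by
  have h : lm (1, 0, 1, 0, 0) = e 0 + e (0 + 2) := by decide +kernel
  rw [h]; unfold rim; abel
theorem hb_0 (u : Lam) : hb u 0 = u + lm (1, -1, 0, 0, -1) := by
  have h : lm (1, -1, 0, 0, -1) = e 0 - e (0 + 1) - e (0 - 1) := by decide +kernel
  rw [h]; unfold hb; abel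
theorem pv_0 (u : Lam) : pv u 0 = u + lm (1, 0, 0, 0, 0) := by
  have h : lm (1, 0, 0, 0, 0) = e 0 := by decide +kernel
  rw [h]; unfold pv; abel
theorem qv_0 (u : Lam) : qv u 0 = u + lm (-1, 1, 0, 0, 1) := by
  have h : lm (-1, 1, 0, 0, 1) = e (0 - 1) + e (0 + 1) - e 0 := by decide +kernel
  rw [h]; unfold qv; abel
theorem vc_0 (u : Lam) : vc u 0 = u + lm (1, -2, 0, 0, -2) := by
  have h : lm (1, -2, 0, 0, -2) = e 0 - e (0 + 1) - e (0 + 1) - e (0 - 1) - e (0 - 1) := by decide +kernel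
  rw [h]; unfold vc; abel
theorem xv_0 (u : Lam) : xv u 0 = u + lm (-1, 0, -1, -1, 0) := by
  have h : lm (-1, 0, -1, -1, 0) = - e 0 - e (0 + 2) - e (0 - 2) := by decide +kernel
  rw [h]; unfold xv; abel
theorem yv_0 (u : Lam) : yv u 0 = u + lm (-1, 1, -1, -1, 1) := by
  have h : lm (-1, 1, -1, -1, 1) = e (0 + 1) + e (0 - 1) - e 0 - e (0 + 2) - e (0 - 2) := by decide +kernel
  rw [h]; unfold yv; abel
theorem rv_0_0 (u : Lam) : rim (vc u 0) 0 = u + lm (2, -2, 1, 0, -2) := by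
  have h : lm (2, -2, 1, 0, -2) = e 0 - e (0 + 1) - e (0 + 1) - e (0 - 1) - e (0 - 1) + e 0 + e (0 + 2) := by decide +kernel
  rw [h]; unfold rim vc; abel
theorem rv_0_1 (u : Lam) : rim (vc u 0) 1 = u + lm (1, -1, 0, 1, -2) := by
  have h : lm (1, -1, 0, 1, -2) = e 0 - e (0 + 1) - e (0 + 1) - e (0 - 1) - e (0 - 1) + e 1 + e (1 + 2) := by decide +kernel
  rw [h]; unfold rim vc; abel
theorem rv_0_2 (u : Lam) : rim (vc u 0) 2 = u + lm (1, -2, 1, 0, -1) := by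
  have h : lm (1, -2, 1, 0, -1) = e 0 - e (0 + 1) - e (0 + 1) - e (0 - 1) - e (0 - 1) + e 2 + e (2 + 2) := by decide +kernel
  rw [h]; unfold rim vc; abel
theorem rv_0_3 (u : Lam) : rim (vc u 0) 3 = u + lm (2, -2, 0, 1, -2) := by
  have h : lm (2, -2, 0, 1, -2) = e 0 - e (0 + 1) - e (0 + 1) - e (0 - 1) - e (0 - 1) + e 3 + e (3 + 2) := by decide +kernel
  rw [h]; unfold rim vc; abel
theorem rv_0_4 (u : Lam) : rim (vc u 0) 4 = u + lm (1, -1, 0, 0, -1) := by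
  have h : lm (1, -1, 0, 0, -1) = e 0 - e (0 + 1) - e (0 + 1) - e (0 - 1) - e (0 - 1) + e 4 + e (4 + 2) := by decide +kernel
  rw [h]; unfold rim vc; abel
theorem rim_1 (u : Lam) : rim u 1 = u + lm (0, 1, 0, 1, 0) := by
  have h : lm (0, 1, 0, 1, 0) = e 1 + e (1 + 2) := by decide +kernel
  rw [h]; unfold rim; abel
theorem hb_1 (u : Lam) : hb u 1 = u + lm (-1, 1, -1, 0, 0) := by
  have h : lm (-1, 1, -1, 0, 0) = e 1 - e (1 + 1) - e (1 - 1) := by decide +kernel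
  rw [h]; unfold hb; abel
theorem pv_1 (u : Lam) : pv u 1 = u + lm (0, 1, 0, 0, 0) := by
  have h : lm (0, 1, 0, 0, 0) = e 1 := by decide +kernel
  rw [h]; unfold pv; abel
theorem qv_1 (u : Lam) : qv u 1 = u + lm (1, -1, 1, 0, 0) := by
  have h : lm (1, -1, 1, 0, 0) = e (1 - 1) + e (1 + 1) - e 1 := by decide +kernel
  rw [h]; unfold qv; abel
theorem vc_1 (u : Lam) : vc u 1 = u + lm (-2, 1, -2, 0, 0) := by
  have h : lm (-2, 1, -2, 0, 0) = e 1 - e (1 + 1) - e (1 + 1) - e (1 - 1) - e (1 - 1) := by decide +kernel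
  rw [h]; unfold vc; abel
theorem xv_1 (u : Lam) : xv u 1 = u + lm (0, -1, 0, -1, -1) := by
  have h : lm (0, -1, 0, -1, -1) = - e 1 - e (1 + 2) - e (1 - 2) := by decide +kernel
  rw [h]; unfold xv; abel
theorem yv_1 (u : Lam) : yv u 1 = u + lm (1, -1, 1, -1, -1) := by
  have h : lm (1, -1, 1, -1, -1) = e (1 + 1) + e (1 - 1) - e 1 - e (1 + 2) - e (1 - 2) := by decide +kernel
  rw [h]; unfold yv; abel
theorem rv_1_0 (u : Lam) : rim (vc u 1) 0 = u + lm (-1, 1, -1, 0, 0) := by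
  have h : lm (-1, 1, -1, 0, 0) = e 1 - e (1 + 1) - e (1 + 1) - e (1 - 1) - e (1 - 1) + e 0 + e (0 + 2) := by decide +kernel
  rw [h]; unfold rim vc; abel
theorem rv_1_1 (u : Lam) : rim (vc u 1) 1 = u + lm (-2, 2, -2, 1, 0) := by
  have h : lm (-2, 2, -2, 1, 0) = e 1 - e (1 + 1) - e (1 + 1) - e (1 - 1) - e (1 - 1) + e 1 + e (1 + 2) := by decide +kernel
  rw [h]; unfold rim vc; abel
theorem rv_1_2 (u : Lam) : rim (vc u 1) 2 = u + lm (-2, 1, -1, 0, 1) := by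
  have h : lm (-2, 1, -1, 0, 1) = e 1 - e (1 + 1) - e (1 + 1) - e (1 - 1) - e (1 - 1) + e 2 + e (2 + 2) := by decide +kernel
  rw [h]; unfold rim vc; abel
theorem rv_1_3 (u : Lam) : rim (vc u 1) 3 = u + lm (-1, 1, -2, 1, 0) := by
  have h : lm (-1, 1, -2, 1, 0) = e 1 - e (1 + 1) - e (1 + 1) - e (1 - 1) - e (1 - 1) + e 3 + e (3 + 2) := by decide +kernel
  rw [h]; unfold rim vc; abel
theorem rv_1_4 (u : Lam) : rim (vc u 1) 4 = u + lm (-2, 2, -2, 0, 1) := by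
  have h : lm (-2, 2, -2, 0, 1) = e 1 - e (1 + 1) - e (1 + 1) - e (1 - 1) - e (1 - 1) + e 4 + e (4 + 2) := by decide +kernel
  rw [h]; unfold rim vc; abel
theorem rim_2 (u : Lam) : rim u 2 = u + lm (0, 0, 1, 0, 1) := by
  have h : lm (0, 0, 1, 0, 1) = e 2 + e (2 + 2) := by decide +kernel
  rw [h]; unfold rim; abel
theorem hb_2 (u : Lam) : hb u 2 = u + lm (0, -1, 1, -1, 0) := by
  have h : lm (0, -1, 1, -1, 0) = e 2 - e (2 + 1) - e (2 - 1) := by decide +kernel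
  rw [h]; unfold hb; abel
theorem pv_2 (u : Lam) : pv u 2 = u + lm (0, 0, 1, 0, 0) := by
  have h : lm (0, 0, 1, 0, 0) = e 2 := by decide +kernel
  rw [h]; unfold pv; abel
theorem qv_2 (u : Lam) : qv u 2 = u + lm (0, 1, -1, 1, 0) := by
  have h : lm (0, 1, -1, 1, 0) = e (2 - 1) + e (2 + 1) - e 2 := by decide +kernel
  rw [h]; unfold qv; abel
theorem vc_2 (u : Lam) : vc u 2 = u + lm (0, -2, 1, -2, 0) := by
  have h : lm (0, -2, 1, -2, 0) = e 2 - e (2 + 1) - e (2 + 1) - e (2 - 1) - e (2 - 1) := by decide +kernel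
  rw [h]; unfold vc; abel
theorem xv_2 (u : Lam) : xv u 2 = u + lm (-1, 0, -1, 0, -1) := by
  have h : lm (-1, 0, -1, 0, -1) = - e 2 - e (2 + 2) - e (2 - 2) := by decide +kernel
  rw [h]; unfold xv; abel
theorem yv_2 (u : Lam) : yv u 2 = u + lm (-1, 1, -1, 1, -1) := by
  have h : lm (-1, 1, -1, 1, -1) = e (2 + 1) + e (2 - 1) - e 2 - e (2 + 2) - e (2 - 2) := by decide +kernel
  rw [h]; unfold yv; abel
theorem rv_2_0 (u : Lam) : rim (vc u 2) 0 = u + lm (1, -2, 2, -2, 0) := by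
  have h : lm (1, -2, 2, -2, 0) = e 2 - e (2 + 1) - e (2 + 1) - e (2 - 1) - e (2 - 1) + e 0 + e (0 + 2) := by decide +kernel
  rw [h]; unfold rim vc; abel
theorem rv_2_1 (u : Lam) : rim (vc u 2) 1 = u + lm (0, -1, 1, -1, 0) := by
  have h : lm (0, -1, 1, -1, 0) = e 2 - e (2 + 1) - e (2 + 1) - e (2 - 1) - e (2 - 1) + e 1 + e (1 + 2) := by decide +kernel
  rw [h]; unfold rim vc; abel
theorem rv_2_2 (u : Lam) : rim (vc u 2) 2 = u + lm (0, -2, 2, -2, 1) := by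
  have h : lm (0, -2, 2, -2, 1) = e 2 - e (2 + 1) - e (2 + 1) - e (2 - 1) - e (2 - 1) + e 2 + e (2 + 2) := by decide +kernel
  rw [h]; unfold rim vc; abel
theorem rv_2_3 (u : Lam) : rim (vc u 2) 3 = u + lm (1, -2, 1, -1, 0) := by
  have h : lm (1, -2, 1, -1, 0) = e 2 - e (2 + 1) - e (2 + 1) - e (2 - 1) - e (2 - 1) + e 3 + e (3 + 2) := by decide +kernel
  rw [h]; unfold rim vc; abel
theorem rv_2_4 (u : Lam) : rim (vc u 2) 4 = u + lm (0, -1, 1, -2, 1) := by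
  have h : lm (0, -1, 1, -2, 1) = e 2 - e (2 + 1) - e (2 + 1) - e (2 - 1) - e (2 - 1) + e 4 + e (4 + 2) := by decide +kernel
  rw [h]; unfold rim vc; abel
theorem rim_3 (u : Lam) : rim u 3 = u + lm (1, 0, 0, 1, 0) := by
  have h : lm (1, 0, 0, 1, 0) = e 3 + e (3 + 2) := by decide +kernel
  rw [h]; unfold rim; abel
theorem hb_3 (u : Lam) : hb u 3 = u + lm (0, 0, -1, 1, -1) := by
  have h : lm (0, 0, -1, 1, -1) = e 3 - e (3 + 1) - e (3 - 1) := by decide +kernel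
  rw [h]; unfold hb; abel
theorem pv_3 (u : Lam) : pv u 3 = u + lm (0, 0, 0, 1, 0) := by
  have h : lm (0, 0, 0, 1, 0) = e 3 := by decide +kernel
  rw [h]; unfold pv; abel
theorem qv_3 (u : Lam) : qv u 3 = u + lm (0, 0, 1, -1, 1) := by
  have h : lm (0, 0, 1, -1, 1) = e (3 - 1) + e (3 + 1) - e 3 := by decide +kernel
  rw [h]; unfold qv; abel
theorem vc_3 (u : Lam) : vc u 3 = u + lm (0, 0, -2, 1, -2) := by
  have h : lm (0, 0, -2, 1, -2) = e 3 - e (3 + 1) - e (3 + 1) - e (3 - 1) - e (3 - 1) := by decide +kernel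
  rw [h]; unfold vc; abel
theorem xv_3 (u : Lam) : xv u 3 = u + lm (-1, -1, 0, -1, 0) := by
  have h : lm (-1, -1, 0, -1, 0) = - e 3 - e (3 + 2) - e (3 - 2) := by decide +kernel
  rw [h]; unfold xv; abel
theorem yv_3 (u : Lam) : yv u 3 = u + lm (-1, -1, 1, -1, 1) := by
  have h : lm (-1, -1, 1, -1, 1) = e (3 + 1) + e (3 - 1) - e 3 - e (3 + 2) - e (3 - 2) := by decide +kernel
  rw [h]; unfold yv; abel
theorem rv_3_0 (u : Lam) : rim (vc u 3) 0 = u + lm (1, 0, -1, 1, -2) := by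
  have h : lm (1, 0, -1, 1, -2) = e 3 - e (3 + 1) - e (3 + 1) - e (3 - 1) - e (3 - 1) + e 0 + e (0 + 2) := by decide +kernel
  rw [h]; unfold rim vc; abel
theorem rv_3_1 (u : Lam) : rim (vc u 3) 1 = u + lm (0, 1, -2, 2, -2) := by
  have h : lm (0, 1, -2, 2, -2) = e 3 - e (3 + 1) - e (3 + 1) - e (3 - 1) - e (3 - 1) + e 1 + e (1 + 2) := by decide +kernel
  rw [h]; unfold rim vc; abel
theorem rv_3_2 (u : Lam) : rim (vc u 3) 2 = u + lm (0, 0, -1, 1, -1) := by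
  have h : lm (0, 0, -1, 1, -1) = e 3 - e (3 + 1) - e (3 + 1) - e (3 - 1) - e (3 - 1) + e 2 + e (2 + 2) := by decide +kernel
  rw [h]; unfold rim vc; abel
theorem rv_3_3 (u : Lam) : rim (vc u 3) 3 = u + lm (1, 0, -2, 2, -2) := by
  have h : lm (1, 0, -2, 2, -2) = e 3 - e (3 + 1) - e (3 + 1) - e (3 - 1) - e (3 - 1) + e 3 + e (3 + 2) := by decide +kernel
  rw [h]; unfold rim vc; abel
theorem rv_3_4 (u : Lam) : rim (vc u 3) 4 = u + lm (0, 1, -2, 1, -1) := by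
  have h : lm (0, 1, -2, 1, -1) = e 3 - e (3 + 1) - e (3 + 1) - e (3 - 1) - e (3 - 1) + e 4 + e (4 + 2) := by decide +kernel
  rw [h]; unfold rim vc; abel
theorem rim_4 (u : Lam) : rim u 4 = u + lm (0, 1, 0, 0, 1) := by
  have h : lm (0, 1, 0, 0, 1) = e 4 + e (4 + 2) := by decide +kernel
  rw [h]; unfold rim; abel
theorem hb_4 (u : Lam) : hb u 4 = u + lm (-1, 0, 0, -1, 1) := by
  have h : lm (-1, 0, 0, -1, 1) = e 4 - e (4 + 1) - e (4 - 1) := by decide +kernel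
  rw [h]; unfold hb; abel
theorem pv_4 (u : Lam) : pv u 4 = u + lm (0, 0, 0, 0, 1) := by
  have h : lm (0, 0, 0, 0, 1) = e 4 := by decide +kernel
  rw [h]; unfold pv; abel
theorem qv_4 (u : Lam) : qv u 4 = u + lm (1, 0, 0, 1, -1) := by
  have h : lm (1, 0, 0, 1, -1) = e (4 - 1) + e (4 + 1) - e 4 := by decide +kernel
  rw [h]; unfold qv; abel
theorem vc_4 (u : Lam) : vc u 4 = u + lm (-2, 0, 0, -2, 1) := by
  have h : lm (-2, 0, 0, -2, 1) = e 4 - e (4 + 1) - e (4 + 1) - e (4 - 1) - e (4 - 1) := by decide +kernel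
  rw [h]; unfold vc; abel
theorem xv_4 (u : Lam) : xv u 4 = u + lm (0, -1, -1, 0, -1) := by
  have h : lm (0, -1, -1, 0, -1) = - e 4 - e (4 + 2) - e (4 - 2) := by decide +kernel
  rw [h]; unfold xv; abel
theorem yv_4 (u : Lam) : yv u 4 = u + lm (1, -1, -1, 1, -1) := by
  have h : lm (1, -1, -1, 1, -1) = e (4 + 1) + e (4 - 1) - e 4 - e (4 + 2) - e (4 - 2) := by decide +kernel
  rw [h]; unfold yv; abel
theorem rv_4_0 (u : Lam) : rim (vc u 4) 0 = u + lm (-1, 0, 1, -2, 1) := by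
  have h : lm (-1, 0, 1, -2, 1) = e 4 - e (4 + 1) - e (4 + 1) - e (4 - 1) - e (4 - 1) + e 0 + e (0 + 2) := by decide +kernel
  rw [h]; unfold rim vc; abel
theorem rv_4_1 (u : Lam) : rim (vc u 4) 1 = u + lm (-2, 1, 0, -1, 1) := by
  have h : lm (-2, 1, 0, -1, 1) = e 4 - e (4 + 1) - e (4 + 1) - e (4 - 1) - e (4 - 1) + e 1 + e (1 + 2) := by decide +kernel
  rw [h]; unfold rim vc; abel
theorem rv_4_2 (u : Lam) : rim (vc u 4) 2 = u + lm (-2, 0, 1, -2, 2) := by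
  have h : lm (-2, 0, 1, -2, 2) = e 4 - e (4 + 1) - e (4 + 1) - e (4 - 1) - e (4 - 1) + e 2 + e (2 + 2) := by decide +kernel
  rw [h]; unfold rim vc; abel
theorem rv_4_3 (u : Lam) : rim (vc u 4) 3 = u + lm (-1, 0, 0, -1, 1) := by
  have h : lm (-1, 0, 0, -1, 1) = e 4 - e (4 + 1) - e (4 + 1) - e (4 - 1) - e (4 - 1) + e 3 + e (3 + 2) := by decide +kernel
  rw [h]; unfold rim vc; abel
theorem rv_4_4 (u : Lam) : rim (vc u 4) 4 = u + lm (-2, 1, 0, -2, 2) := by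
  have h : lm (-2, 1, 0, -2, 2) = e 4 - e (4 + 1) - e (4 + 1) - e (4 - 1) - e (4 - 1) + e 4 + e (4 + 2) := by decide +kernel
  rw [h]; unfold rim vc; abel

theorem lm0 (u : Lam) : u + lm (0, 0, 0, 0, 0) = u := by
  have h : lm (0, 0, 0, 0, 0) = 0 := by decide +kernel
  rw [h, add_zero]

theorem sum5 (f : ZMod 5 → ℝ) : ∑ j, f j = f 0 + f 1 + f 2 + f 3 + f 4 := Fin.sum_univ_five f

theorem K1 : ST_K1 := by
  intro P a c hO hn h
  have hb := ok_of (P := P) (u := c) 3 (-2) (fun j => by have := h j; push_cast; linarith)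
  have h1 := orth_fn hb hn L1 ck1 nd1 hO
  simp only [L1, List.map_cons, List.map_nil, List.sum_cons, List.sum_nil, lm0] at h1
  rw [sum5]
  simp only [rim_0, rim_1, rim_2, rim_3, rim_4]
  push_cast at h1
  linarith

theorem K2 : ST_K2 := by
  intro P a z hO hn h
  have hb := ok_of (P := P) (u := z) (-5) 3 (fun j => by have := h j; push_cast; linarith)
  have h1 := orth_fn hb hn L2 ck2 nd2 hO
  simp only [L2, List.map_cons, List.map_nil, List.sum_cons, List.sum_nil] at h1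
  rw [sum5]
  simp only [hb_0, hb_1, hb_2, hb_3, hb_4, pv_0, pv_1, pv_2, pv_3, pv_4, qv_0, qv_1, qv_2, qv_3,
    qv_4]
  push_cast at h1
  linarith

theorem K3 : ST_K3 := by
  intro P a u hO hn h
  have hb := ok_of (P := P) (u := u) 8 (-5) (fun j => by have := h j; push_cast; linarith)
  have h1 := orth_fn hb hn L3 ck3 nd3 hO
  simp only [L3, List.map_cons, List.map_nil, List.sum_cons, List.sum_nil] at h1
  simp only [sum5]
  simp only [rv_0_0, rv_0_1, rv_0_2, rv_0_3, rv_0_4, rv_1_0, rv_1_1, rv_1_2, rv_1_3, rv_1_4,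
    rv_2_0, rv_2_1, rv_2_2, rv_2_3, rv_2_4, rv_3_0, rv_3_1, rv_3_2, rv_3_3, rv_3_4,
    rv_4_0, rv_4_1, rv_4_2, rv_4_3, rv_4_4]
  simp only [vc_0, vc_1, vc_2, vc_3, vc_4, xv_0, xv_1, xv_2, xv_3, xv_4, yv_0, yv_1, yv_2, yv_3,
    yv_4]
  push_cast at h1
  linarith

end Pool.Agent.Helper69.ISO.Chk
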