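import Pool.Agent.Helper69.ISO.Chk

/-!
Project ISO: kernel functions given by a table.
-/

set_option autoImplicit false

namespace Pool.Agent.Helper69.ISO.Chk

open Pool.Agent.Helper79.PN Pool.Agent.Helper69.ISO

/-- displacements as quintuples -/
abbrev Q : Type := ℤ × ℤ × ℤ × ℤ × ℤ

def lm (q : Q) : Lam := ![q.1, q.2.1, q.2.2.1, q.2.2.2.1, q.2.2.2.2]
def un (D : Lam) : Q := (D 0, D 1, D 2, D 3, D 4)

theorem lm_un (D : Lam) : lm (un D) = D := by
  funext k
  fin_cases k <;> rfl

theorem un_lm (q : Q) : un (lm q) = q := rfl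

/-- neighbours -/
def nq (q : Q) : List Q :=
  [(q.1 + 1, q.2.1, q.2.2.1, q.2.2.2.1, q.2.2.2.2), (q.1 - 1, q.2.1, q.2.2.1, q.2.2.2.1, q.2.2.2.2),
   (q.1, q.2.1 + 1, q.2.2.1, q.2.2.2.1, q.2.2.2.2), (q.1, q.2.1 - 1, q.2.2.1, q.2.2.2.1, q.2.2.2.2),
   (q.1, q.2.1, q.2.2.1 + 1, q.2.2.2.1, q.2.2.2.2), (q.1, q.2.1, q.2.2.1 - 1, q.2.2.2.1, q.2.2.2.2),
   (q.1, q.2.1, q.2.2.1, q.2.2.2.1 + 1, q.2.2.2.2), (q.1, q.2.1, q.2.2.1, q.2.2.2.1 - 1, q.2.2.2.2),
   (q.1, q.2.1, q.2.2.1, q.2.2.2.1, q.2.2.2.2 + 1), (q.1, q.2.1, q.2.2.1, q.2.2.2.1, q.2.2.2.2 - 1)]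

theorem un_add_e (D : Lam) : [un (D + e 0), un (D - e 0), un (D + e 1), un (D - e 1),
    un (D + e 2), un (D - e 2), un (D + e 3), un (D - e 3), un (D + e 4), un (D - e 4)] =
    nq (un D) := by
  have h : ∀ i j : ZMod 5, e i j = if j = i then 1 else 0 := by
    intro i j
    unfold e
    rw [Pi.single_apply]
  unfold un nq
  simp only [Pi.add_apply, Pi.sub_apply, h]
  simp (decide := true)

/-- look up in a table -/
def lk : List (Q × ℤ) → Q → ℤ
  | [], _ => 0
  | x :: t, q => if x.1 = q then x.2 else lk t q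

theorem lk_mem {L : List (Q × ℤ)} {q : Q} (h : lk L q ≠ 0) : ∃ c, (q, c) ∈ L := by
  induction L with
  | nil => exact absurd rfl h
  | cons x t ih =>
    unfold lk at h
    split_ifs at h with h1
    · exact ⟨x.2, by rw [← h1]; exact List.mem_cons_self⟩
    · obtain ⟨c, hc⟩ := ih h
      exact ⟨c, List.mem_cons_of_mem _ hc⟩

/-- sum of the table over the neighbours -/
def ts (L : List (Q × ℤ)) (q : Q) : ℤ := ((nq q).map (lk L)).sum

/-- the check -/
def ck (b : Bd) (n0 : ℤ) (L : List (Q × ℤ)) : Bool :=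
  (L.all fun x => inV b n0 (lm x.1) && noT b n0 (lm x.1)) &&
    (L.all fun x => (nq x.1).all fun q => decide (ts L q = 0) || noT b n0 (lm q))

theorem nq_symm {p q : Q} (h : p ∈ nq q) : q ∈ nq p := by
  unfold nq at *
  obtain ⟨a, b, c, d, f⟩ := q
  simp only [List.mem_cons, List.not_mem_nil, or_false] at h
  rcases h with h | h | h | h | h | h | h | h | h | h <;> subst h <;> simp

/-- the function given by the table -/
noncomputable def fn (L : List (Q × ℤ)) (u : Lam) (K : Lam) : ℝ := (lk L (un (K - u)) : ℝ)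

theorem adj_fn (L : List (Q × ℤ)) (u w : Lam) : adj (fn L u) w = (ts L (un (w - u)) : ℝ) := by
  have h1 : adj (fn L u) w = (fn L u (w + e 0) + fn L u (w - e 0)) +
      (fn L u (w + e 1) + fn L u (w - e 1)) + (fn L u (w + e 2) + fn L u (w - e 2)) +
      (fn L u (w + e 3) + fn L u (w - e 3)) + (fn L u (w + e 4) + fn L u (w - e 4)) :=
    Fin.sum_univ_five _
  have h2 : ∀ i, fn L u (w + e i) = (lk L (un ((w - u) + e i)) : ℝ) := by
    intro i
    unfold fn
    rw [show w + e i - u = (w - u) + e i by abel]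
  have h3 : ∀ i, fn L u (w - e i) = (lk L (un ((w - u) - e i)) : ℝ) := by
    intro i
    unfold fn
    rw [show w - e i - u = (w - u) - e i by abel]
  rw [h1]
  simp only [h2, h3]
  unfold ts
  rw [← un_add_e]
  simp only [List.map_cons, List.map_nil, List.sum_cons, List.sum_nil]
  push_cast
  ring

theorem ker_fn {b : Bd} {P : Pen} {u : Lam} {n0 : ℤ} (hb : b.Ok P u) (hn : P.n u = n0)
    (L : List (Q × ℤ)) (h : ck b n0 L = true) : Ker P (fn L u) := by
  unfold ck at h
  rw [Bool.and_eq_true, List.all_eq_true, List.all_eq_true] at h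
  obtain ⟨h1, h2⟩ := h
  have hu : ∀ K : Lam, u + lm (un (K - u)) = K := by
    intro K
    rw [lm_un]
    abel
  refine ⟨?_, ?_, ?_⟩
  · refine ((List.finite_toSet L).image fun x => u + lm x.1).subset fun K hK => ?_
    rw [Function.mem_support] at hK
    obtain ⟨c, hc⟩ := lk_mem (L := L) (q := un (K - u)) (by
      intro h0
      apply hK
      unfold fn
      rw [h0]
      simp)
    exact ⟨_, hc, hu K⟩
  · intro K hK
    by_contra hc
    have h3 : lk L (un (K - u)) ≠ 0 := by
      intro h0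
      apply hc
      unfold fn
      rw [h0]
      simp
    obtain ⟨c, hc'⟩ := lk_mem h3
    have h4 := h1 _ hc'
    rw [Bool.and_eq_true] at h4
    have h5 := inV_sound hb hn h4.1
    have h6 := noT_sound hb hn h4.2
    rw [hu] at h5 h6
    rcases hK with hK | hK
    · exact hK h5
    · exact h6 hK
  · intro w hw
    rw [adj_fn]
    by_contra hc
    have h3 : ts L (un (w - u)) ≠ 0 := by
      intro h0
      apply hc
      rw [h0]
      simp
    have h4 : ∃ p ∈ nq (un (w - u)), lk L p ≠ 0 := by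
      by_contra h5
      push Not at h5
      apply h3
      unfold ts
      refine List.sum_eq_zero fun x hx => ?_
      rw [List.mem_map] at hx
      obtain ⟨p, hp, rfl⟩ := hx
      exact h5 p hp
    obtain ⟨p, hp1, hp2⟩ := h4
    obtain ⟨c, hc'⟩ := lk_mem hp2
    have h5 := h2 _ hc'
    rw [List.all_eq_true] at h5
    have h6 := h5 _ (nq_symm hp1)
    rw [Bool.or_eq_true, decide_eq_true_eq] at h6
    rcases h6 with h6 | h6
    · exact h3 h6
    · have h7 := noT_sound hb hn h6
      rw [hu] at h7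
      exact h7 hw

theorem lk_not_mem {L : List (Q × ℤ)} {q : Q} (h : q ∉ L.map Prod.fst) : lk L q = 0 := by
  by_contra hc
  obtain ⟨c, hc'⟩ := lk_mem hc
  exact h (List.mem_map.2 ⟨_, hc', rfl⟩)

theorem sum_fn (u : Lam) (a : Lam → ℝ) (L : List (Q × ℤ)) (hL : (L.map Prod.fst).Nodup) :
    HasSum (fun K => a K * fn L u K) (L.map fun x => (x.2 : ℝ) * a (u + lm x.1)).sum := by
  induction L with
  | nil =>
    simp only [List.map_nil, List.sum_nil]
    have : (fun K => a K * fn [] u K) = fun _ => 0 := by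
      funext K
      unfold fn lk
      simp
    rw [this]
    exact hasSum_zero
  | cons x t ih =>
    rw [List.map_cons, List.nodup_cons] at hL
    rw [List.map_cons, List.sum_cons]
    have h1 := ih hL.2
    have h2 : HasSum (fun K => if K = u + lm x.1 then (x.2 : ℝ) * a K else 0)
        ((x.2 : ℝ) * a (u + lm x.1)) := by
      have h0 : (fun K => if K = u + lm x.1 then (x.2 : ℝ) * a K else 0) =
          fun K => if K = u + lm x.1 then (x.2 : ℝ) * a (u + lm x.1) else 0 := by
        funext K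
        split_ifs with hK
        · rw [hK]
        · rfl
      rw [h0]
      exact hasSum_ite_eq _ _
    have h3 := h2.add h1
    have h4 : (fun K => a K * fn (x :: t) u K) = fun K =>
        (if K = u + lm x.1 then (x.2 : ℝ) * a K else 0) + a K * fn t u K := by
      funext K
      unfold fn
      by_cases hK : K = u + lm x.1
      · subst hK
        have h5 : u + lm x.1 - u = lm x.1 := by abel
        rw [if_pos rfl, h5, un_lm, lk_not_mem hL.1]
        unfold lk
        rw [if_pos rfl]
        push_cast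
        ring
      · rw [if_neg hK]
        have h5 : x.1 ≠ un (K - u) := by
          intro h
          apply hK
          rw [h, lm_un]
          abel
        conv_lhs => unfold lk
        rw [if_neg h5]
        ring
    rw [h4]
    exact h3

/-- the relation obtained from a table -/
theorem orth_fn {b : Bd} {P : Pen} {u : Lam} {n0 : ℤ} (hb : b.Ok P u) (hn : P.n u = n0)
    (L : List (Q × ℤ)) (h : ck b n0 L = true) (hL : (L.map Prod.fst).Nodup) {a : Lam → ℝ}
    (hO : Orth P a) : (L.map fun x => (x.2 : ℝ) * a (u + lm x.1)).sum = 0 := by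
  rw [← (sum_fn u a L hL).tsum_eq]
  exact hO _ (ker_fn hb hn L h)

/-- upper bounds from lower bounds -/
theorem ok_of {P : Pen} {u : Lam} (l1 l2 : ℤ) (h : ∀ j, (l1 : ℝ) + l2 * g < 2 * P.h u j) :
    (Bd.mk l1 l2 (2 * l1 - 2 * l2) (-2 * l1)).Ok P u := by
  intro j
  refine ⟨h j, ?_⟩
  have h1 := P.rel2 u j
  have h2 := h (j + 2)
  have h3 := h (j - 2)
  have h4 := g_sq
  have h5 := g_gt
  push_cast
  have h6 : g * (2 * P.h u j) < g * (2 * l1 - 2 * l2 + -2 * l1 * g) := by
    have h7 : g * (2 * P.h u j) = -2 * (P.h u (j + 2) + P.h u (j - 2)) := by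
      rw [h1]; ring
    have h8 : g * (2 * (l1 : ℝ) - 2 * l2 + -2 * l1 * g) = -2 * l1 - 2 * l2 * g := by
      linear_combination (-2 * (l1 : ℝ)) * h4
    rw [h7, h8]
    linarith
  exact lt_of_mul_lt_mul_left h6 (by linarith)

end Pool.Agent.Helper69.ISO.Chk
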