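import Pool.Agent.Helper69.ISO.Tools

/-!
Project ISO, row M1: full rings.
-/

set_option autoImplicit false

open scoped Classical

namespace Pool.Agent.Helper69.ISO

open Pool.Agent.Helper79.PN

theorem rim_hb (z : Lam) (k : ZMod 5) : rim (hb z k) (k - 1) = pv z k := by
  unfold rim hb pv
  rw [show k - 1 + 2 = k + 1 by ring]
  abel

theorem hb_move (z : Lam) (k : ZMod 5) :
    e k + -e (k + 1) + -e (k - 1) ∈ Bx 3 ∧ hb z k = z + (e k + -e (k + 1) + -e (k - 1)) := by
  refine ⟨?_, ?_⟩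
  · exact add_mem_Bx (m := 2) (n := 1) (add_mem_Bx (m := 1) (n := 1) (e_mem_Bx _)
      (neg_mem_Bx (e_mem_Bx _))) (neg_mem_Bx (e_mem_Bx _))
  · unfold hb
    abel

theorem M1 (hG4 : ST_G4) (hB1 : ST_B1) (hB2 : ST_B2) (hK2 : ST_K2) : ST_M1 := by
  intro P a z M ha hO hF hN
  have hM : 0 ≤ M := near_nonneg hN
  have hB := hB2 P a z M (sup_of_sup4 ha) hF
    (near_move hN 0 0 (zero_mem_Bx 0) (by rw [add_zero]) (by norm_num))
  set A := a (pv z 0) with hA
  have key : |A| ≤ 32 * M := by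
    rcases hG4 P z hF with ⟨k, hW⟩ | hC
    · obtain ⟨hb1, hb2⟩ := hb_move z k
      have h1 := hB1 P a (hb z k) M (sup_of_sup4 ha) hW
        (near_move hN _ 3 hb1 hb2 (by norm_num)) (k - 1)
      rw [rim_hb] at h1
      obtain ⟨h2, h3, -⟩ := hB k
      rw [abs_le] at *
      constructor <;> linarith [h1.1, h1.2, h2.1, h2.2, h3.1, h3.2]
    · have h1 := hK2 P a z hO hF.1 hC
      have h2 : |∑ k : ZMod 5, ((a (hb z k) + a (pv z k) - 2 * a (qv z k)) - 6 * A)| ≤
          ∑ _k : ZMod 5, 120 * M := by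
        refine (Finset.abs_sum_le_sum_abs _ _).trans (Finset.sum_le_sum fun k _ => ?_)
        obtain ⟨h2, h3, h4⟩ := hB k
        rw [abs_le] at *
        constructor <;> linarith [h2.1, h2.2, h3.1, h3.2, h4.1, h4.2]
      rw [Finset.sum_sub_distrib, h1, Finset.sum_const, Finset.sum_const, Finset.card_univ,
        ZMod.card] at h2
      rw [abs_le] at *
      simp only [nsmul_eq_mul] at h2
      push_cast at h2
      constructor <;> linarith [h2.1, h2.2]
  intro k
  obtain ⟨h2, h3, h4⟩ := hB k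
  rw [abs_le] at h2 h3 h4 key
  refine ⟨?_, ?_, ?_⟩ <;> rw [abs_le] <;> constructor <;>
    linarith [h2.1, h2.2, h3.1, h3.2, h4.1, h4.2, key.1, key.2]

end Pool.Agent.Helper69.ISO
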